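import Pool.Agent.AEN.Stmts

/-!
# Anderson model, the cheap end: row EIG
-/

set_option autoImplicit false

open MeasureTheory ProbabilityTheory Function Filter

open scoped ENNReal BigOperators InnerProductSpace Topology ComplexConjugate

noncomputable section

namespace Pool.Agent.AEN.H41

open Pool.Agent.Anderson Pool.Agent.Loc Pool.Agent.Helper54.Bal Pool.Agent.QE

variable {d : ℕ}

theorem phi_le {V : Site d → ℝ} {E0 : ℝ} {φ : L2 d} (hφ : IsEigen V E0 φ) {z : ℂ}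
    (hz : z.im ≠ 0) : ‖φ 0‖ ≤ ‖(E0 : ℂ) - z‖ * (‖φ‖ * ‖G V z (del 0)‖) := by
  have hz' := conj_im_ne hz
  have h1 : φ = G V (conj z) (((E0 : ℂ) - conj z) • φ) := by
    apply G_unique hz'
    intro x
    rw [lp.coeFn_smul, Pi.smul_apply, smul_eq_mul]
    have := hφ x
    linear_combination this
  rw [map_smul] at h1
  have h2 : ⟪φ, del (0 : Site d)⟫_ℂ = ((E0 : ℂ) - z) * ⟪φ, G V z (del 0)⟫_ℂ := by
    conv_lhs => rw [h1]
    rw [inner_smul_left, map_sub, Complex.conj_conj, Complex.conj_ofReal,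
      (isRes_G V).adj _ hz', Complex.conj_conj]
  rw [inner_del_right] at h2
  have h3 := congrArg norm h2
  rw [norm_mul, RCLike.norm_conj] at h3
  rw [h3]
  gcongr
  exact norm_inner_le_norm _ _

theorem key {V : Site d → ℝ} {E0 : ℝ} {φ : L2 d} (hφ : IsEigen V E0 φ) (h0 : φ ≠ 0) {η E : ℝ}
    (hη : 0 < η) (hE : |E - E0| ≤ η) :
    ‖φ 0‖ ^ 4 / (4 * η * ‖φ‖ ^ 4) ≤ η * ‖G V (zz η E) (del 0) 0‖ ^ 2 := by
  have hz : (zz η E).im ≠ 0 := by rw [zz_im]; exact hη.ne'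
  have hN : 0 < ‖φ‖ := norm_pos_iff.2 h0
  have h1 := phi_le hφ hz
  have h2 : ‖(E0 : ℂ) - zz η E‖ ^ 2 ≤ 2 * η ^ 2 := by
    rw [← Complex.normSq_eq_norm_sq, Complex.normSq_apply]
    simp only [Complex.sub_re, Complex.sub_im, Complex.ofReal_re, Complex.ofReal_im, zz_re, zz_im]
    have h3 : (E0 - E) ^ 2 ≤ η ^ 2 := by
      rw [← sq_abs (E0 - E), abs_sub_comm]
      exact pow_le_pow_left₀ (abs_nonneg _) hE 2
    nlinarith
  have h4 : ‖φ 0‖ ^ 2 ≤ 2 * η ^ 2 * (‖φ‖ ^ 2 * ‖G V (zz η E) (del 0)‖ ^ 2) := by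
    calc ‖φ 0‖ ^ 2 ≤ (‖(E0 : ℂ) - zz η E‖ * (‖φ‖ * ‖G V (zz η E) (del 0)‖)) ^ 2 :=
          pow_le_pow_left₀ (norm_nonneg _) h1 2
      _ = ‖(E0 : ℂ) - zz η E‖ ^ 2 * (‖φ‖ ^ 2 * ‖G V (zz η E) (del 0)‖ ^ 2) := by ring
      _ ≤ _ := by gcongr
  have h5 : η * ‖G V (zz η E) (del 0)‖ ^ 2 ≤ ‖G V (zz η E) (del 0) 0‖ := by
    have h6 := im_G_del' (V := V) hz 0
    rw [zz_im] at h6
    rw [← h6]
    exact (le_abs_self _).trans (Complex.abs_im_le_norm _)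
  have h7 : ‖φ 0‖ ^ 2 / (2 * η * ‖φ‖ ^ 2) ≤ ‖G V (zz η E) (del 0) 0‖ := by
    refine le_trans ?_ h5
    rw [div_le_iff₀ (by positivity)]
    calc ‖φ 0‖ ^ 2 ≤ 2 * η ^ 2 * (‖φ‖ ^ 2 * ‖G V (zz η E) (del 0)‖ ^ 2) := h4
      _ = _ := by ring
  calc ‖φ 0‖ ^ 4 / (4 * η * ‖φ‖ ^ 4) = η * (‖φ 0‖ ^ 2 / (2 * η * ‖φ‖ ^ 2)) ^ 2 := by
        field_simp
        ring
    _ ≤ _ := by gcongr

theorem eig : EigStmt := by
  intro d V a b E0 φ ha hb hφ h0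
  have hN : 0 < ‖φ‖ := norm_pos_iff.2 h0
  have h1 : ∀ᶠ n in atTop, et n < min (E0 - a) (b - E0) :=
    tendsto_et.eventually_lt_const (lt_min (by linarith) (by linarith))
  filter_upwards [h1] with n hn
  have hη := et_pos n
  have h2 := lt_min_iff.1 hn
  have hsub : Set.Ioo (E0 - et n) (E0 + et n) ⊆ Set.Ioo a b := by
    intro E hE
    exact ⟨by linarith [hE.1, h2.1], by linarith [hE.2, h2.2]⟩
  calc ENNReal.ofReal (‖φ 0‖ ^ 4 / (2 * ‖φ‖ ^ 4))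
      = ENNReal.ofReal (‖φ 0‖ ^ 4 / (4 * et n * ‖φ‖ ^ 4)) *
        volume (Set.Ioo (E0 - et n) (E0 + et n)) := by
        rw [Real.volume_Ioo, ← ENNReal.ofReal_mul (by positivity)]
        congr 1
        field_simp
        ring
    _ = ∫⁻ _ in Set.Ioo (E0 - et n) (E0 + et n),
        ENNReal.ofReal (‖φ 0‖ ^ 4 / (4 * et n * ‖φ‖ ^ 4)) := (setLIntegral_const _ _).symm
    _ ≤ ∫⁻ E in Set.Ioo (E0 - et n) (E0 + et n),
        ENNReal.ofReal (et n * ‖Gn V E n 0 0‖ ^ 2) := by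
        refine setLIntegral_mono' measurableSet_Ioo fun E hE => ENNReal.ofReal_le_ofReal ?_
        exact key hφ h0 hη (abs_le.2 ⟨by linarith [hE.1], by linarith [hE.2]⟩)
    _ ≤ II V a b n := lintegral_mono_set hsub

end Pool.Agent.AEN.H41
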